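import Pool.Agent.Helper57.MT.Goals
import Pool.Agent.Helper41.MC.ZS

/-!
# Packet MC2-ZT: the rare `h`
-/

set_option autoImplicit false

open Finset

open scoped Classical

namespace Pool.Agent.Helper59.MT

open Pool.Agent.Helper57.MT Pool.Agent.Helper41.MC

lemma pow_bound (K : ℕ) {y : ℝ} (h0 : 0 ≤ y) (h1 : y ≤ 1) :
    (1 + 2 * y) ^ K ≤ 1 + (3 ^ K - 1) * y := by
  induction K with
  | zero => simp
  | succ K ih =>
    have h2 : (0 : ℝ) ≤ 3 ^ K - 1 := sub_nonneg.2 (one_le_pow₀ (by norm_num))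
    have h3 : (1 + 2 * y) ^ (K + 1) ≤ (1 + (3 ^ K - 1) * y) * (1 + 2 * y) := by
      rw [pow_succ]
      exact mul_le_mul_of_nonneg_right ih (by linarith)
    have h4 : (3 ^ K - 1) * y * y ≤ (3 ^ K - 1) * y * 1 :=
      mul_le_mul_of_nonneg_left h1 (mul_nonneg h2 h0)
    rw [pow_succ (3 : ℝ) K]
    nlinarith [h3, h4]

lemma prod_le_one_add (H : Finset ℕ) (F : ℕ → ℝ) (hF : ∀ i ∈ H, 1 ≤ F i) :
    ∏ i ∈ H, F i ≤ 1 + ∑ i ∈ H, F i ^ H.card := by
  rcases H.eq_empty_or_nonempty with h | h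
  · subst h; simp
  · obtain ⟨m, hm, hmax⟩ := exists_max_image H F h
    have h1 : ∏ i ∈ H, F i ≤ F m ^ H.card := by
      rw [← prod_const]
      exact prod_le_prod (fun i hi => by linarith [hF i hi]) hmax
    have h2 : F m ^ H.card ≤ ∑ i ∈ H, F i ^ H.card :=
      single_le_sum (f := fun i => F i ^ H.card)
        (fun i hi => pow_nonneg (by linarith [hF i hi]) _) hm
    linarith

theorem zt : StmtZT := by
  intro K
  obtain ⟨E, hE⟩ : ∃ E : ℝ, E = Real.exp (3 ^ K * Bc) := ⟨_, rfl⟩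
  have hE0 : 0 < E := by rw [hE]; exact Real.exp_pos _
  refine ⟨1 + K * (2 * E), by
    have : (0 : ℝ) ≤ K * (2 * E) := by positivity
    linarith, fun Y L H hH hK => ?_⟩
  obtain ⟨P, hP⟩ : ∃ P : Finset ℕ, P = (Icc 1 L).filter Nat.Prime := ⟨_, rfl⟩
  rw [← hP]
  have hPp : ∀ l ∈ P, l.Prime := fun l hl => by rw [hP] at hl; exact (mem_filter.1 hl).2
  obtain ⟨a, ha⟩ : ∃ a : ℕ → ℝ, a = fun l : ℕ => 1 + 2 / √(l : ℝ) := ⟨_, rfl⟩
  have ha1 : ∀ l, 1 ≤ a l := fun l => by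
    rw [ha]
    have : (0 : ℝ) ≤ 2 / √(l : ℝ) := by positivity
    show (1 : ℝ) ≤ 1 + 2 / √(l : ℝ)
    linarith
  obtain ⟨g, hg⟩ : ∃ g : ℕ → ℝ, g = fun l => a l ^ K - 1 := ⟨_, rfl⟩
  have hg0 : ∀ l, 0 ≤ g l := fun l => by
    rw [hg]
    exact sub_nonneg.2 (one_le_pow₀ (ha1 l))
  have hgle : ∀ l ∈ P, g l / l ≤ 3 ^ K / ((l : ℝ) * √(l : ℝ)) := by
    intro l hl
    have h2 : (2 : ℝ) ≤ l := by exact_mod_cast (hPp l hl).two_le
    have hs1 : 1 ≤ √(l : ℝ) := Real.one_le_sqrt.2 (by linarith)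
    have hy1 : 1 / √(l : ℝ) ≤ 1 := by
      rw [div_le_one (by linarith)]; exact hs1
    have h3 := pow_bound K (y := 1 / √(l : ℝ)) (by positivity) hy1
    have h4 : g l ≤ 3 ^ K / √(l : ℝ) := by
      rw [hg, ha]
      show (1 + 2 / √(l : ℝ)) ^ K - 1 ≤ 3 ^ K / √(l : ℝ)
      have h5 : 1 + 2 / √(l : ℝ) = 1 + 2 * (1 / √(l : ℝ)) := by ring
      rw [h5]
      have h6 : (3 ^ K - 1) * (1 / √(l : ℝ)) ≤ 3 ^ K / √(l : ℝ) := by
        rw [mul_one_div]
        exact div_le_div_of_nonneg_right (by linarith) (by linarith)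
      linarith
    calc g l / l ≤ 3 ^ K / √(l : ℝ) / l := div_le_div_of_nonneg_right h4 (by linarith)
      _ = _ := by rw [div_div, mul_comm]
  -- for one `h'`
  obtain ⟨F, hF⟩ : ∃ F : ℕ → ℕ → ℝ, F = fun h h' =>
      ∏ l ∈ P, (if h ≡ h' [MOD l] then a l else 1) := ⟨_, rfl⟩
  have hF1 : ∀ h h', 1 ≤ F h h' := by
    intro h h'
    rw [hF]
    calc (1 : ℝ) = ∏ l ∈ P, 1 := prod_const_one.symm
      _ ≤ ∏ l ∈ P, (if h ≡ h' [MOD l] then a l else 1) := by
        refine prod_le_prod (fun _ _ => zero_le_one) fun l _ => ?_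
        split_ifs
        · exact ha1 l
        · exact le_rfl
  -- the product over `H`
  have hstep : ∀ h, ∏ l ∈ P, (if Ht H l h then 1 + 2 / √(l : ℝ) else 1) ≤
      1 + ∑ h' ∈ H, F h h' ^ K := by
    intro h
    have h1 : ∏ l ∈ P, (if Ht H l h then 1 + 2 / √(l : ℝ) else 1) ≤ ∏ h' ∈ H, F h h' := by
      rw [hF, prod_comm]
      refine prod_le_prod (fun l _ => ?_) fun l _ => ?_
      · split_ifs
        · positivity
        · exact zero_le_one
      · have h2 : ∀ h' ∈ H, (1 : ℝ) ≤ (if h ≡ h' [MOD l] then a l else 1) := by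
          intro h' _
          split_ifs
          · exact ha1 l
          · exact le_rfl
        have h3 : (1 : ℝ) ≤ ∏ h' ∈ H, (if h ≡ h' [MOD l] then a l else 1) := by
          calc (1 : ℝ) = ∏ h' ∈ H, 1 := prod_const_one.symm
            _ ≤ _ := prod_le_prod (fun _ _ => zero_le_one) h2
        split_ifs with hHt
        · obtain ⟨h₀, hh₀, hm⟩ := hHt
          have h4 : (1 : ℝ) ≤ ∏ h' ∈ H.erase h₀, (if h ≡ h' [MOD l] then a l else 1) := by
            calc (1 : ℝ) = ∏ h' ∈ H.erase h₀, 1 := prod_const_one.symm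
              _ ≤ _ := prod_le_prod (fun _ _ => zero_le_one) fun i hi => h2 i (mem_of_mem_erase hi)
          rw [← mul_prod_erase H _ hh₀, if_pos hm]
          have h5 : 1 + 2 / √(l : ℝ) = a l := by rw [ha]
          rw [h5]
          nlinarith [ha1 l]
        · exact h3
    refine h1.trans ?_
    rw [← hK]
    exact prod_le_one_add H (F h) fun i _ => hF1 h i
  -- the mean of the power
  have hmean : ∀ h' ∈ H, ∑ h ∈ Icc 1 Y \ H, F h h' ^ K ≤ 2 * E * Y := by
    intro h' hh'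
    have hh'Y := (mem_Icc.1 (hH hh')).2
    have h1 : ∀ h, F h h' ^ K = ∑ s ∈ P.powerset,
        (if ∀ l ∈ s, h ≡ h' [MOD l] then ∏ l ∈ s, g l else 0) := by
      intro h
      rw [hF]
      show (∏ l ∈ P, (if h ≡ h' [MOD l] then a l else 1)) ^ K = _
      rw [← prod_pow]
      have h2 : ∀ l ∈ P, (if h ≡ h' [MOD l] then a l else 1) ^ K =
          1 + (if h ≡ h' [MOD l] then g l else 0) := by
        intro l _
        rw [hg]
        split_ifs
        · show a l ^ K = 1 + (a l ^ K - 1)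
          ring
        · simp
      rw [prod_congr rfl h2, prod_one_add]
      refine sum_congr rfl fun s _ => ?_
      split_ifs with h3
      · exact prod_congr rfl fun l hl => if_pos (h3 l hl)
      · push Not at h3
        obtain ⟨l, hl, hl'⟩ := h3
        exact prod_eq_zero hl (if_neg hl')
    rw [sum_congr rfl fun h _ => h1 h, sum_comm]
    have h2 : ∀ s ∈ P.powerset, ∑ h ∈ Icc 1 Y \ H,
        (if ∀ l ∈ s, h ≡ h' [MOD l] then ∏ l ∈ s, g l else 0) ≤
        2 * Y * ∏ l ∈ s, (g l / l) := by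
      intro s hs
      have hsP := mem_powerset.1 hs
      have hG0 : 0 ≤ ∏ l ∈ s, g l := prod_nonneg fun l _ => hg0 l
      rw [← sum_filter, sum_const, nsmul_eq_mul, prod_div_distrib]
      have h3 : (Icc 1 Y \ H).filter (fun h => ∀ l ∈ s, h ≡ h' [MOD l]) ⊆
          (Icc 1 Y).filter (fun h => h ≠ h' ∧ (∏ l ∈ s, l) ∣ Nat.dist h h') := by
        intro h hh
        rw [mem_filter, mem_sdiff] at hh
        rw [mem_filter]
        refine ⟨hh.1.1, fun e => hh.1.2 (e ▸ hh'), ?_⟩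
        refine Finset.prod_primes_dvd _ (fun l hl => (hPp l (hsP hl)).prime) fun l hl => ?_
        have h4 := hh.2 l hl
        rcases le_total h h' with hle | hle
        · rw [Nat.dist_eq_sub_of_le hle]
          exact (Nat.modEq_iff_dvd' hle).1 h4
        · rw [Nat.dist_eq_sub_of_le_right hle]
          exact (Nat.modEq_iff_dvd' hle).1 h4.symm
      have h5 : (((Icc 1 Y \ H).filter (fun h => ∀ l ∈ s, h ≡ h' [MOD l])).card : ℝ) ≤
          2 * ((Y : ℝ) / (∏ l ∈ s, (l : ℝ))) := by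
        have h6 := triv Y (∏ l ∈ s, l) h' hh'Y
        rw [Nat.cast_prod] at h6
        refine le_trans ?_ h6
        exact_mod_cast card_le_card h3
      calc (((Icc 1 Y \ H).filter (fun h => ∀ l ∈ s, h ≡ h' [MOD l])).card : ℝ) * ∏ l ∈ s, g l
          ≤ 2 * ((Y : ℝ) / (∏ l ∈ s, (l : ℝ))) * ∏ l ∈ s, g l :=
            mul_le_mul_of_nonneg_right h5 hG0
        _ = _ := by ring
    refine (sum_le_sum h2).trans ?_
    rw [← mul_sum]
    have h3 : ∑ s ∈ P.powerset, ∏ l ∈ s, (g l / l) ≤ E := by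
      rw [hE]
      exact euler (a := fun l => g l / l) (fun l _ => div_nonneg (hg0 l) (Nat.cast_nonneg l))
        hgle (by positivity)
    calc 2 * (Y : ℝ) * ∑ s ∈ P.powerset, ∏ l ∈ s, (g l / l) ≤ 2 * (Y : ℝ) * E :=
          mul_le_mul_of_nonneg_left h3 (by positivity)
      _ = _ := by ring
  calc ∑ h ∈ Icc 1 Y \ H, ∏ l ∈ P, (if Ht H l h then 1 + 2 / √(l : ℝ) else 1)
      ≤ ∑ h ∈ Icc 1 Y \ H, (1 + ∑ h' ∈ H, F h h' ^ K) := sum_le_sum fun h _ => hstep h
    _ = ((Icc 1 Y \ H).card : ℝ) + ∑ h' ∈ H, ∑ h ∈ Icc 1 Y \ H, F h h' ^ K := by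
        rw [sum_add_distrib, sum_const, nsmul_eq_mul, mul_one]
        congr 1
        exact sum_comm
    _ ≤ (Y : ℝ) + ∑ h' ∈ H, 2 * E * Y := by
        refine add_le_add ?_ (sum_le_sum hmean)
        have h7 : (Icc 1 Y \ H).card ≤ Y := by
          refine (card_le_card sdiff_subset).trans ?_
          rw [Nat.card_Icc]; omega
        exact_mod_cast h7
    _ = (1 + K * (2 * E)) * Y := by
        rw [sum_const, nsmul_eq_mul, hK]; ring

end Pool.Agent.Helper59.MT
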