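import Pool.Agent.Helper23.MT.Goals

/-!
# Packet MT-SIZENUM: size bound and numerical constants
-/

set_option autoImplicit false

namespace Pool.Agent.Helper59.MT

open Pool.Agent.Helper23.MT

theorem gSIZE : GSIZE := by
  intro k
  induction k with
  | zero =>
    intro z _
    simp [ones]
  | succ k ih =>
    intro z hz
    have h0 : z % 3 = 0 ∨ z % 3 = 2 := by
      have := hz 0 (Nat.succ_pos k)
      simp only [Function.iterate_zero, id_eq] at this
      omega
    have hS : Surv k (U z) := fun i hi => by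
      rw [← Function.iterate_succ_apply]
      exact hz (i + 1) (by omega)
    have h1 := ih (U z) hS
    rw [Function.iterate_succ_apply]
    refine h1.trans ?_
    rcases h0 with h | h
    · have h2 : (3 : ℝ) * (U z : ℝ) = z := by exact_mod_cast U_zero_mod h
      have h3 : ones (k + 1) z = ones k (U z) := by
        simp [ones, h]
      rw [h3]
      refine mul_le_mul_of_nonneg_left ?_ (by positivity)
      rw [← h2, abs_mul, abs_of_pos (by norm_num : (0 : ℝ) < 3), pow_succ, mul_comm (3 : ℝ) |_|,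
        mul_div_mul_right _ _ (by norm_num)]
    · have h2 : (3 : ℝ) * (U z : ℝ) = 7 * z - 2 := by exact_mod_cast U_two_mod h
      have h3 : ones (k + 1) z = ones k (U z) + 1 := by simp [ones, h]
      rw [h3, pow_succ, mul_assoc]
      refine mul_le_mul_of_nonneg_left ?_ (by positivity)
      have h4 : |(U z : ℝ)| ≤ (7 * |(z : ℝ)| + 2) / 3 := by
        rw [abs_le]
        constructor
        · have := neg_abs_le (z : ℝ)
          linarith
        · have := le_abs_self (z : ℝ)
          linarith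
      have h5 : |(U z : ℝ)| / 3 ^ k ≤ ((7 * |(z : ℝ)| + 2) / 3) / 3 ^ k := by gcongr
      have h6 : ((7 * |(z : ℝ)| + 2) / 3) / 3 ^ k =
          7 * (|(z : ℝ)| / 3 ^ (k + 1)) + (2 / 3) / 3 ^ k := by
        rw [pow_succ]
        field_simp
      have h7 : (2 / 3 : ℝ) / 3 ^ k ≤ 2 / 3 :=
        div_le_self (by norm_num) (one_le_pow₀ (by norm_num))
      linarith

theorem gNUM : GNUM := by
  refine ⟨116762 / 100000, 16818 / 10000, 45966 / 100000, by norm_num, by norm_num, by norm_num,
    by norm_num, ?_, by norm_num, ?_, by norm_num⟩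
  · have h1 : (7 : ℝ) ^ ((629 : ℝ) / 1000) ≤ 34007 / 10000 := by
      have h2 : ((7 : ℝ) ^ ((629 : ℝ) / 1000)) ^ (1000 : ℕ) ≤ (34007 / 10000) ^ (1000 : ℕ) := by
        rw [← Real.rpow_natCast ((7 : ℝ) ^ _), ← Real.rpow_mul (by norm_num)]
        have : (629 : ℝ) / 1000 * ((1000 : ℕ) : ℝ) = ((629 : ℕ) : ℝ) := by norm_num
        rw [this, Real.rpow_natCast]
        calc (7 : ℝ) ^ 629 = (7 ^ 37) ^ 17 := by rw [← pow_mul]
          _ ≤ ((34007 / 10000) ^ 100) ^ 10 := by norm_num
          _ = (34007 / 10000) ^ 1000 := by rw [← pow_mul]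
      exact (pow_le_pow_iff_left₀ (by positivity) (by norm_num) (by norm_num)).1 h2
    have h3 : (7 : ℝ) ^ ((629 : ℝ) / 1000) * (64 / 63) ≤ 34007 / 10000 * (64 / 63) := by gcongr
    refine h3.trans ?_
    norm_num
  · rw [show (629 : ℝ) / 1000 + 1 / 8 * (628 / 1000) = 283 / 400 by norm_num]
    have h2 : (1 / (45966 / 100000) : ℝ) ^ (400 : ℕ) ≤ ((3 : ℝ) ^ ((283 : ℝ) / 400)) ^ (400 : ℕ) := by
      rw [← Real.rpow_natCast ((3 : ℝ) ^ _), ← Real.rpow_mul (by norm_num)]
      have : (283 : ℝ) / 400 * ((400 : ℕ) : ℝ) = ((283 : ℕ) : ℝ) := by norm_num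
      rw [this, Real.rpow_natCast, one_div_div]
      calc (100000 / 45966 : ℝ) ^ 400 = ((100000 / 45966) ^ 20) ^ 20 := by rw [← pow_mul]
        _ ≤ 3 ^ 200 * 3 ^ 83 := by norm_num
        _ = 3 ^ 283 := by rw [← pow_add]
    exact (pow_le_pow_iff_left₀ (by positivity) (by positivity) (by norm_num)).1 h2

end Pool.Agent.Helper59.MT
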